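import Pool.Agent.L5helper11.OM.Defs

/-!
# J1: mean value of an antiperiodic function
-/

set_option autoImplicit false

open Finset Filter Topology Complex MeasureTheory

namespace Pool.Agent.L5helper50.OMJ1

/-- the oscillating factor -/
noncomputable def X (w t : ℝ) : ℂ := (t : ℂ) ^ (((-w : ℝ) : ℂ) * I)

/-- the frequency -/
noncomputable def wk (k : ℕ) : ℝ := (2 * k + 1) * Real.pi / Real.log 2

theorem X_eq (w t : ℝ) (ht : 0 < t) :
    X w t = Complex.exp (((-(w * Real.log t) : ℝ) : ℂ) * I) := by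
  unfold X
  rw [Complex.cpow_def_of_ne_zero (by exact_mod_cast ht.ne'), ← Complex.ofReal_log ht.le]
  congr 1
  push_cast
  ring

theorem X_norm (w t : ℝ) (ht : 0 < t) : ‖X w t‖ = 1 := by
  rw [X_eq w t ht, Complex.norm_exp_ofReal_mul_I]

theorem X_mul (w s t : ℝ) (hs : 0 < s) (ht : 0 < t) : X w (s * t) = X w s * X w t := by
  rw [X_eq _ _ (mul_pos hs ht), X_eq _ _ hs, X_eq _ _ ht, ← Complex.exp_add,
    Real.log_mul hs.ne' ht.ne']
  congr 1
  push_cast
  ring

theorem X_meas (w : ℝ) : Measurable (X w) := by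
  unfold X
  exact Complex.measurable_ofReal.pow_const _

theorem log2_pos : (0 : ℝ) < Real.log 2 := Real.log_pos (by norm_num)

theorem X_two (k : ℕ) : X (wk k) 2 = -1 := by
  rw [X_eq _ _ two_pos]
  have h1 : wk k * Real.log 2 = (2 * k + 1) * Real.pi := by
    unfold wk
    have := log2_pos.ne'
    field_simp
  rw [h1]
  have h2 : (((-((2 * k + 1) * Real.pi) : ℝ) : ℂ) * I) =
      -((k : ℂ) * (2 * Real.pi * I) + Real.pi * I) := by
    push_cast; ring
  rw [h2, Complex.exp_neg, Complex.exp_add, Complex.exp_nat_mul_two_pi_mul_I,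
    Complex.exp_pi_mul_I]
  norm_num

theorem X_two_pow (k j : ℕ) : X (wk k) (2 ^ j) = (-1) ^ j := by
  induction j with
  | zero =>
    rw [pow_zero, pow_zero, X_eq _ _ one_pos, Real.log_one]
    simp
  | succ j ih =>
    rw [pow_succ, X_mul _ _ _ (by positivity) two_pos, ih, X_two, pow_succ]

theorem scal (R : ℝ → ℝ) (k j : ℕ) (σ y : ℝ) (hy : 0 < y) :
    (2 : ℂ) ^ j * (((R (2 ^ j * y) * (2 ^ j * y) ^ (-σ) : ℝ) : ℂ) * X (wk k) (2 ^ j * y)) =
      ((((2 : ℝ) ^ (1 - σ)) ^ j : ℝ) : ℂ) *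
        ((((-1) ^ j * R (2 ^ j * y) * y ^ (-σ) : ℝ) : ℂ) * X (wk k) y) := by
  have h2 : (0 : ℝ) < 2 ^ j := by positivity
  rw [X_mul _ _ _ h2 hy, X_two_pow]
  have e1 : ((2 : ℝ) ^ j * y) ^ (-σ) = ((2 : ℝ) ^ j) ^ (-σ) * y ^ (-σ) :=
    Real.mul_rpow h2.le hy.le
  have e2 : (2 : ℝ) ^ j * ((2 : ℝ) ^ j) ^ (-σ) = ((2 : ℝ) ^ (1 - σ)) ^ j := by
    rw [← Real.rpow_natCast 2 j, ← Real.rpow_mul (by norm_num), ← Real.rpow_add (by norm_num),
      ← Real.rpow_natCast, ← Real.rpow_mul (by norm_num)]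
    congr 1
    ring
  rw [e1, ← e2]
  push_cast
  ring

theorem hs_congr {f g : ℕ → ℂ} {a : ℂ} (h : HasSum f a) (hfg : ∀ j, g j = f j) :
    HasSum g a := by
  have : g = f := funext hfg
  rw [this]; exact h

theorem dyad (g : ℝ → ℂ) (hg : IntegrableOn g (Set.Ioi 1)) :
    HasSum (fun j : ℕ => (2 : ℂ) ^ j * ∫ y in Set.Ico (1 : ℝ) 2, g (2 ^ j * y))
      (∫ t in Set.Ioi (1 : ℝ), g t) := by
  have hU : (⋃ j : ℕ, Set.Ico ((2 : ℝ) ^ j) (2 ^ (j + 1))) = Set.Ici 1 := by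
    ext x
    simp only [Set.mem_iUnion, Set.mem_Ico, Set.mem_Ici]
    constructor
    · rintro ⟨j, h1, h2⟩
      exact (one_le_pow₀ (by norm_num)).trans h1
    · intro hx
      exact exists_nat_pow_near hx (by norm_num)
  have hdis : Pairwise (Function.onFun Disjoint fun j : ℕ => Set.Ico ((2 : ℝ) ^ j) (2 ^ (j + 1))) :=
    (pow_right_mono₀ (by norm_num : (1 : ℝ) ≤ 2)).pairwise_disjoint_on_Ico_succ
  have hI : IntegrableOn g (⋃ j : ℕ, Set.Ico ((2 : ℝ) ^ j) (2 ^ (j + 1))) := by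
    rw [hU]
    exact (integrableOn_Ici_iff_integrableOn_Ioi (by finiteness)).2 hg
  have h := hasSum_integral_iUnion (fun j => measurableSet_Ico) hdis hI
  rw [hU, integral_Ici_eq_integral_Ioi] at h
  refine hs_congr h fun j => ?_
  have h2 : (2 : ℝ) ^ j ≠ 0 := by positivity
  have hle : (2 : ℝ) ^ j ≤ 2 ^ (j + 1) := by
    rw [pow_succ]; have : (0 : ℝ) < 2 ^ j := by positivity
    linarith
  rw [integral_Ico_eq_integral_Ioo, ← integral_Ioc_eq_integral_Ioo,
    ← intervalIntegral.integral_of_le (by norm_num : (1 : ℝ) ≤ 2),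
    intervalIntegral.integral_comp_mul_left g h2, integral_Ico_eq_integral_Ioo,
    ← integral_Ioc_eq_integral_Ioo, ← intervalIntegral.integral_of_le hle, mul_one, ← pow_succ,
    Complex.real_smul, ← mul_assoc]
  push_cast
  rw [mul_inv_cancel₀ (pow_ne_zero _ two_ne_zero), one_mul]

theorem bdd_intg (f : ℝ → ℂ) (hf : Measurable f) (C : ℝ)
    (h : ∀ y ∈ Set.Ico (1 : ℝ) 2, ‖f y‖ ≤ C) : IntegrableOn f (Set.Ico (1 : ℝ) 2) := by
  have hc : IntegrableOn (fun _ : ℝ => C) (Set.Ico (1 : ℝ) 2) :=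
    integrableOn_const (by simp)
  refine Integrable.mono' hc hf.aestronglyMeasurable ?_
  rw [ae_restrict_iff' measurableSet_Ico]
  filter_upwards with t ht using h t ht

theorem lim_factor : Tendsto (fun σ : ℝ => (σ - 1) / (1 - (2 : ℝ) ^ (1 - σ))) (𝓝[>] 1)
    (𝓝 (1 / Real.log 2)) := by
  have hd : HasDerivAt (fun x : ℝ => -(2 : ℝ) ^ (-x)) (Real.log 2) 0 := by
    have h1 : HasDerivAt (fun x : ℝ => -x) (-1) 0 := hasDerivAt_neg 0
    have h2 : HasDerivAt (fun x : ℝ => (2 : ℝ) ^ (-x)) (Real.log 2 * -1 * 2 ^ (-(0 : ℝ))) 0 :=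
      h1.const_rpow (by norm_num)
    have h3 : HasDerivAt (fun x : ℝ => -(2 : ℝ) ^ (-x))
      (-(Real.log 2 * -1 * 2 ^ (-(0 : ℝ)))) 0 := h2.neg
    rw [show -(Real.log 2 * -1 * (2 : ℝ) ^ (-(0 : ℝ))) = Real.log 2 by simp] at h3
    exact h3
  rw [hasDerivAt_iff_tendsto_slope] at hd
  have ht : Tendsto (fun σ : ℝ => σ - 1) (𝓝[>] 1) (𝓝[≠] 0) := by
    rw [tendsto_nhdsWithin_iff]
    constructor
    · have : Tendsto (fun σ : ℝ => σ - 1) (𝓝 1) (𝓝 (1 - 1)) :=
        (continuous_id.sub continuous_const).tendsto 1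
      rw [sub_self] at this
      exact this.mono_left nhdsWithin_le_nhds
    · filter_upwards [self_mem_nhdsWithin] with σ hσ
      have : (1 : ℝ) < σ := hσ
      exact sub_ne_zero.2 this.ne'
  have h3 := (hd.comp ht).inv₀ log2_pos.ne'
  rw [one_div]
  refine h3.congr fun σ => ?_
  simp only [Function.comp, slope_def_field, neg_zero, Real.rpow_zero, sub_zero]
  rw [show -(σ - 1) = 1 - σ by ring, inv_div]
  congr 1
  ring

theorem I0_lim (F : ℝ → ℝ) (A : ℝ) (hF : Measurable F) (hA : ∀ y, |F y| ≤ A) (w : ℝ) :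
    Tendsto (fun σ : ℝ => ∫ y in Set.Ico (1 : ℝ) 2, ((F y * y ^ (-σ) : ℝ) : ℂ) * X w y) (𝓝[>] 1)
      (𝓝 (∫ y in Set.Ico (1 : ℝ) 2, ((F y * y ^ (-1 : ℝ) : ℝ) : ℂ) * X w y)) := by
  apply tendsto_integral_filter_of_dominated_convergence (fun _ => A)
  · filter_upwards with σ
    apply Measurable.aestronglyMeasurable
    exact (Complex.measurable_ofReal.comp (hF.mul (measurable_id.pow_const _))).mul (X_meas w)
  · filter_upwards [self_mem_nhdsWithin] with σ hσ
    rw [ae_restrict_iff' measurableSet_Ico]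
    filter_upwards with y hy
    have hy0 : (0 : ℝ) < y := lt_of_lt_of_le one_pos hy.1
    have h1 : y ^ (-σ) ≤ 1 := Real.rpow_le_one_of_one_le_of_nonpos hy.1 (by
      have : (1 : ℝ) < σ := hσ
      linarith)
    have h0 : 0 ≤ y ^ (-σ) := by positivity
    rw [norm_mul, X_norm _ _ hy0, mul_one, Complex.norm_real, Real.norm_eq_abs, abs_mul,
      abs_of_nonneg h0]
    calc |F y| * y ^ (-σ) ≤ |F y| * 1 := mul_le_mul_of_nonneg_left h1 (abs_nonneg _)
      _ ≤ A := by rw [mul_one]; exact hA y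
  · exact integrableOn_const (by simp)
  · rw [ae_restrict_iff' measurableSet_Ico]
    filter_upwards with y hy
    have hy0 : (0 : ℝ) < y := lt_of_lt_of_le one_pos hy.1
    have hc : ContinuousAt (fun σ : ℝ => ((F y * y ^ (-σ) : ℝ) : ℂ) * X w y) 1 := by
      apply ContinuousAt.mul _ continuousAt_const
      apply Complex.continuous_ofReal.continuousAt.comp
      apply ContinuousAt.mul continuousAt_const
      exact (Real.continuous_const_rpow hy0.ne').continuousAt.comp continuous_neg.continuousAt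
    exact hc.tendsto.mono_left nhdsWithin_le_nhds

theorem subst (F : ℝ → ℝ) (k : ℕ) :
    ∫ y in Set.Ico (1 : ℝ) 2, ((F y * y ^ (-1 : ℝ) : ℝ) : ℂ) * X (wk k) y =
      (Real.log 2 : ℂ) * ∫ u in (0 : ℝ)..1, (F (2 ^ u) : ℂ) *
        Complex.exp (((-((2 * k + 1) * Real.pi * u) : ℝ) : ℂ) * I) := by
  have himg : (fun u : ℝ => (2 : ℝ) ^ u) '' Set.Ico (0 : ℝ) 1 = Set.Ico (1 : ℝ) 2 := by
    ext y
    simp only [Set.mem_image, Set.mem_Ico]
    constructor
    · rintro ⟨u, ⟨h1, h2⟩, rfl⟩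
      refine ⟨Real.one_le_rpow (by norm_num) h1, ?_⟩
      calc (2 : ℝ) ^ u < 2 ^ (1 : ℝ) := Real.rpow_lt_rpow_of_exponent_lt (by norm_num) h2
        _ = 2 := Real.rpow_one 2
    · rintro ⟨h1, h2⟩
      have hy : 0 < y := by linarith
      refine ⟨Real.logb 2 y, ⟨Real.logb_nonneg (by norm_num) h1, ?_⟩,
        Real.rpow_logb (by norm_num) (by norm_num) hy⟩
      rw [Real.logb_lt_iff_lt_rpow (by norm_num) hy, Real.rpow_one]
      exact h2
  have hder : ∀ u ∈ Set.Ico (0 : ℝ) 1, HasDerivWithinAt (fun u : ℝ => (2 : ℝ) ^ u)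
      (Real.log 2 * (2 : ℝ) ^ u) (Set.Ico (0 : ℝ) 1) u := by
    intro u _
    have h2 : HasDerivAt (fun u : ℝ => (2 : ℝ) ^ u) (Real.log 2 * 1 * (2 : ℝ) ^ u) u :=
      (hasDerivAt_id u).const_rpow (by norm_num)
    rw [mul_one] at h2
    exact h2.hasDerivWithinAt
  have hinj : Set.InjOn (fun u : ℝ => (2 : ℝ) ^ u) (Set.Ico (0 : ℝ) 1) := by
    intro a _ b _ hab
    exact (Real.strictMono_rpow_of_base_gt_one (by norm_num : (1 : ℝ) < 2)).injective hab
  rw [← himg, integral_image_eq_integral_abs_deriv_smul measurableSet_Ico hder hinj,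
    intervalIntegral.integral_of_le zero_le_one, integral_Ioc_eq_integral_Ioo,
    ← integral_Ico_eq_integral_Ioo, ← integral_const_mul]
  apply setIntegral_congr_fun measurableSet_Ico
  intro u _
  have h2 : (0 : ℝ) < 2 ^ u := by positivity
  have hX : X (wk k) (2 ^ u) = Complex.exp (((-((2 * k + 1) * Real.pi * u) : ℝ) : ℂ) * I) := by
    rw [X_eq _ _ h2, Real.log_rpow two_pos]
    congr 3
    unfold wk
    have := log2_pos.ne'
    field_simp
  simp only
  rw [hX, abs_of_pos (mul_pos log2_pos h2), Complex.real_smul, Real.rpow_neg_one]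
  have h3 : ((2 : ℝ) ^ u : ℝ) ≠ 0 := h2.ne'
  rw [← mul_assoc, ← mul_assoc, ← Complex.ofReal_mul, ← Complex.ofReal_mul]
  congr 2
  field_simp

end Pool.Agent.L5helper50.OMJ1

namespace Pool.Agent.L5helper11.OM

open Pool.Agent.L5helper50.OMJ1

theorem j1 : J1 := by
  intro R F A e hR hF hA he hRF k
  have he0 : ∀ j, 0 ≤ e j := fun j =>
    (abs_nonneg _).trans (hRF j 1 le_rfl (by norm_num))
  have hA0 : 0 ≤ A := (abs_nonneg _).trans (hA 0)
  obtain ⟨E, hE⟩ : ∃ E, ∀ j, e j ≤ E := by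
    obtain ⟨E, hE⟩ := he.bddAbove_range
    exact ⟨E, fun j => hE ⟨j, rfl⟩⟩
  have hE0 : 0 ≤ E := (he0 0).trans (hE 0)
  -- bound of `R`
  have hRb : ∀ t : ℝ, 1 ≤ t → |R t| ≤ A + E := by
    intro t ht
    obtain ⟨j, h1, h2⟩ := exists_nat_pow_near ht (show (1 : ℝ) < 2 by norm_num)
    have hp : (0 : ℝ) < 2 ^ j := by positivity
    have h3 := hRF j (t / 2 ^ j) (by rw [le_div_iff₀ hp]; linarith)
      (by rw [div_lt_iff₀ hp]; rw [pow_succ] at h2; linarith)
    rw [mul_div_cancel₀ _ hp.ne'] at h3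
    have h4 : |(-1 : ℝ) ^ j * F (t / 2 ^ j)| ≤ A := by
      rw [abs_mul, abs_pow, abs_neg, abs_one, one_pow, one_mul]; exact hA _
    have h5 := abs_sub_abs_le_abs_sub (R t) ((-1 : ℝ) ^ j * F (t / 2 ^ j))
    have h6 := hE j
    linarith
  set w : ℝ := wk k with hw
  -- integrability
  have hint : ∀ σ : ℝ, 1 < σ →
      IntegrableOn (fun t : ℝ => ((R t * t ^ (-σ) : ℝ) : ℂ) * X w t) (Set.Ioi 1) := by
    intro σ hσ
    have hg : IntegrableOn (fun t : ℝ => (A + E) * t ^ (-σ)) (Set.Ioi 1) :=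
      (integrableOn_Ioi_rpow_of_lt (by linarith) one_pos).const_mul _
    refine Integrable.mono' hg ?_ ?_
    · apply Measurable.aestronglyMeasurable
      exact (Complex.measurable_ofReal.comp (hR.mul (measurable_id.pow_const _))).mul (X_meas w)
    · rw [ae_restrict_iff' measurableSet_Ioi]
      filter_upwards with t ht
      have ht1 : (1 : ℝ) < t := ht
      have ht' : (0 : ℝ) < t := lt_trans one_pos ht1
      have h0 : 0 ≤ t ^ (-σ) := by positivity
      rw [norm_mul, X_norm _ _ ht', mul_one, Complex.norm_real, Real.norm_eq_abs, abs_mul,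
        abs_of_nonneg h0]
      exact mul_le_mul_of_nonneg_right (hRb t ht1.le) h0
  set I0 : ℝ → ℂ := fun σ => ∫ y in Set.Ico (1 : ℝ) 2, ((F y * y ^ (-σ) : ℝ) : ℂ) * X w y with hI0
  set c : ℕ → ℝ → ℂ := fun j σ => ∫ y in Set.Ico (1 : ℝ) 2,
    (((-1) ^ j * R (2 ^ j * y) * y ^ (-σ) : ℝ) : ℂ) * X w y with hc
  set Int : ℝ → ℂ := fun σ => ∫ t in Set.Ioi (1 : ℝ), ((R t * t ^ (-σ) : ℝ) : ℂ) * X w t with hInt
  have hsum : ∀ σ : ℝ, 1 < σ →
      HasSum (fun j : ℕ => ((((2 : ℝ) ^ (1 - σ)) ^ j : ℝ) : ℂ) * c j σ) (Int σ) := by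
    intro σ hσ
    have h := dyad _ (hint σ hσ)
    refine hs_congr h fun j => ?_
    rw [hc]
    simp only
    rw [← integral_const_mul, ← integral_const_mul]
    apply setIntegral_congr_fun measurableSet_Ico
    intro y hy
    exact (scal R k j σ y (lt_of_lt_of_le one_pos hy.1)).symm
  have hcI : ∀ (j : ℕ) (σ : ℝ), 1 < σ → ‖c j σ - I0 σ‖ ≤ e j := by
    intro j σ hσ
    have hb1 : ∀ y ∈ Set.Ico (1 : ℝ) 2,
        ‖(((-1) ^ j * R (2 ^ j * y) * y ^ (-σ) : ℝ) : ℂ) * X w y‖ ≤ A + E := by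
      intro y hy
      have hy0 : (0 : ℝ) < y := lt_of_lt_of_le one_pos hy.1
      have h1 : y ^ (-σ) ≤ 1 := Real.rpow_le_one_of_one_le_of_nonpos hy.1 (by linarith)
      have h0 : 0 ≤ y ^ (-σ) := by positivity
      rw [norm_mul, X_norm _ _ hy0, mul_one, Complex.norm_real, Real.norm_eq_abs, abs_mul,
        abs_of_nonneg h0, abs_mul, abs_pow, abs_neg, abs_one, one_pow, one_mul]
      have h2 : 1 ≤ 2 ^ j * y := one_le_mul_of_one_le_of_one_le (one_le_pow₀ (by norm_num)) hy.1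
      calc |R (2 ^ j * y)| * y ^ (-σ) ≤ |R (2 ^ j * y)| * 1 :=
            mul_le_mul_of_nonneg_left h1 (abs_nonneg _)
        _ ≤ A + E := by rw [mul_one]; exact hRb _ h2
    have hb2 : ∀ y ∈ Set.Ico (1 : ℝ) 2, ‖((F y * y ^ (-σ) : ℝ) : ℂ) * X w y‖ ≤ A := by
      intro y hy
      have hy0 : (0 : ℝ) < y := lt_of_lt_of_le one_pos hy.1
      have h1 : y ^ (-σ) ≤ 1 := Real.rpow_le_one_of_one_le_of_nonpos hy.1 (by linarith)
      have h0 : 0 ≤ y ^ (-σ) := by positivity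
      rw [norm_mul, X_norm _ _ hy0, mul_one, Complex.norm_real, Real.norm_eq_abs, abs_mul,
        abs_of_nonneg h0]
      calc |F y| * y ^ (-σ) ≤ |F y| * 1 := mul_le_mul_of_nonneg_left h1 (abs_nonneg _)
        _ ≤ A := by rw [mul_one]; exact hA y
    have hi1 := bdd_intg (fun y => (((-1) ^ j * R (2 ^ j * y) * y ^ (-σ) : ℝ) : ℂ) * X w y)
      ((Complex.measurable_ofReal.comp ((measurable_const.mul
        (hR.comp (measurable_const.mul measurable_id))).mul (measurable_id.pow_const _))).mul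
          (X_meas w)) _ hb1
    have hi2 := bdd_intg (fun y => ((F y * y ^ (-σ) : ℝ) : ℂ) * X w y)
      ((Complex.measurable_ofReal.comp (hF.mul (measurable_id.pow_const _))).mul (X_meas w)) _ hb2
    rw [hc, hI0]
    simp only
    rw [← integral_sub hi1 hi2]
    have h := norm_setIntegral_le_of_norm_le_const (μ := volume) (s := Set.Ico (1 : ℝ) 2)
      (f := fun y => (((-1) ^ j * R (2 ^ j * y) * y ^ (-σ) : ℝ) : ℂ) * X w y -
        ((F y * y ^ (-σ) : ℝ) : ℂ) * X w y) (C := e j) (by simp) (by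
      intro y hy
      have hy0 : (0 : ℝ) < y := lt_of_lt_of_le one_pos hy.1
      have h1 : y ^ (-σ) ≤ 1 := Real.rpow_le_one_of_one_le_of_nonpos hy.1 (by linarith)
      have h0 : 0 ≤ y ^ (-σ) := by positivity
      have h2 := hRF j y hy.1 hy.2
      have h3 : |(-1 : ℝ) ^ j * R (2 ^ j * y) - F y| ≤ e j := by
        have h4 : (-1 : ℝ) ^ j * R (2 ^ j * y) - F y =
            (-1) ^ j * (R (2 ^ j * y) - (-1) ^ j * F y) := by
          have h5 : (-1 : ℝ) ^ j * (-1) ^ j = 1 := by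
            rw [← mul_pow]; norm_num
          linear_combination F y * h5
        rw [h4, abs_mul, abs_pow, abs_neg, abs_one, one_pow, one_mul]
        exact h2
      rw [← sub_mul, norm_mul, X_norm _ _ hy0, mul_one, ← Complex.ofReal_sub, Complex.norm_real,
        Real.norm_eq_abs, ← sub_mul, abs_mul, abs_of_nonneg h0]
      calc _ ≤ |(-1 : ℝ) ^ j * R (2 ^ j * y) - F y| * 1 :=
            mul_le_mul_of_nonneg_left h1 (abs_nonneg _)
        _ ≤ e j := by rw [mul_one]; exact h3)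
    have hv : volume.real (Set.Ico (1 : ℝ) 2) = 1 := by
      rw [Real.volume_real_Ico_of_le (by norm_num)]; norm_num
    rw [hv, mul_one] at h
    exact h
  -- the error
  have herr : Tendsto (fun σ : ℝ => ((σ : ℂ) - 1) * Int σ -
      (((σ - 1) / (1 - (2 : ℝ) ^ (1 - σ)) : ℝ) : ℂ) * I0 σ) (𝓝[>] 1) (𝓝 0) := by
    rw [Metric.tendsto_nhds]
    intro δ hδ
    set L : ℝ := 1 / Real.log 2 + 1 with hL
    have hL0 : 0 < L := by have := log2_pos; positivity
    have hε : 0 < δ / (2 * L) := by positivity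
    obtain ⟨J, hJ⟩ := Filter.eventually_atTop.1 (he.eventually_le_const hε)
    have hev1 : ∀ᶠ σ in 𝓝[>] (1 : ℝ), (σ - 1) / (1 - (2 : ℝ) ^ (1 - σ)) < L :=
      lim_factor.eventually_lt_const (by rw [hL]; linarith)
    have hev2 : ∀ᶠ σ in 𝓝[>] (1 : ℝ), (σ - 1) * (J * E) < δ / 2 := by
      have : Tendsto (fun σ : ℝ => (σ - 1) * (J * E)) (𝓝 1) (𝓝 ((1 - 1) * (J * E))) :=
        ((continuous_id.sub continuous_const).mul continuous_const).tendsto 1
      rw [sub_self, zero_mul] at this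
      exact (this.mono_left nhdsWithin_le_nhds).eventually_lt_const (by linarith)
    filter_upwards [self_mem_nhdsWithin, hev1, hev2] with σ hσ h1 h2
    have hσ1 : (1 : ℝ) < σ := hσ
    set r : ℝ := (2 : ℝ) ^ (1 - σ) with hr
    have hr0 : 0 ≤ r := by positivity
    have hr1 : r < 1 := Real.rpow_lt_one_of_one_lt_of_neg (by norm_num) (by linarith)
    have hg := hasSum_geometric_of_lt_one hr0 hr1
    have hg' : HasSum (fun j : ℕ => ((r ^ j : ℝ) : ℂ)) (((1 - r)⁻¹ : ℝ) : ℂ) := by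
      exact_mod_cast hg
    have hd := (hsum σ hσ1).sub (hg'.mul_right (I0 σ))
    have hb : HasSum (fun j : ℕ => δ / (2 * L) * r ^ j + (if j ∈ range J then E else 0))
        (δ / (2 * L) * (1 - r)⁻¹ + J * E) := by
      apply (hg.mul_left _).add
      have h7 : HasSum (fun j : ℕ => if j ∈ range J then E else 0)
          (∑ j ∈ range J, if j ∈ range J then E else 0) :=
        hasSum_sum_of_ne_finset_zero (by intro b hb; rw [if_neg hb])
      rw [Finset.sum_ite_mem, Finset.inter_self, Finset.sum_const, Finset.card_range,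
        nsmul_eq_mul] at h7
      exact h7
    have hn := hd.norm_le_of_bounded hb (by
      intro j
      have h3 := hcI j σ hσ1
      have hrj : 0 ≤ r ^ j := pow_nonneg hr0 j
      have hrj1 : r ^ j ≤ 1 := pow_le_one₀ hr0 hr1.le
      rw [← mul_sub, norm_mul, Complex.norm_real, Real.norm_eq_abs, abs_of_nonneg hrj]
      by_cases hj : j ∈ range J
      · rw [if_pos hj]
        have h4 : r ^ j * ‖c j σ - I0 σ‖ ≤ 1 * E :=
          mul_le_mul hrj1 (h3.trans (hE j)) (norm_nonneg _) zero_le_one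
        have h5 : 0 ≤ δ / (2 * L) * r ^ j := by positivity
        linarith
      · rw [if_neg hj, add_zero, mul_comm]
        have h4 : ‖c j σ - I0 σ‖ ≤ δ / (2 * L) := h3.trans (hJ j (by
          rw [mem_range] at hj; omega))
        exact mul_le_mul_of_nonneg_right h4 hrj)
    rw [dist_zero_right]
    have e1 : ((σ : ℂ) - 1) * Int σ - (((σ - 1) / (1 - r) : ℝ) : ℂ) * I0 σ =
        ((σ - 1 : ℝ) : ℂ) * (Int σ - (((1 - r)⁻¹ : ℝ) : ℂ) * I0 σ) := by
      rw [div_eq_mul_inv]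
      push_cast
      ring
    rw [e1, norm_mul, Complex.norm_real, Real.norm_eq_abs, abs_of_pos (by linarith)]
    have h3 : (σ - 1) * ‖Int σ - (((1 - r)⁻¹ : ℝ) : ℂ) * I0 σ‖ ≤
        (σ - 1) * (δ / (2 * L) * (1 - r)⁻¹ + J * E) :=
      mul_le_mul_of_nonneg_left hn (by linarith)
    have h4 : (σ - 1) * (δ / (2 * L) * (1 - r)⁻¹ + J * E) =
        δ / (2 * L) * ((σ - 1) / (1 - r)) + (σ - 1) * (J * E) := by
      rw [div_eq_mul_inv (σ - 1)]; ring
    have h5 : δ / (2 * L) * ((σ - 1) / (1 - r)) ≤ δ / (2 * L) * L :=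
      mul_le_mul_of_nonneg_left h1.le hε.le
    have h6 : δ / (2 * L) * L = δ / 2 := by field_simp
    linarith
  have hmain : Tendsto (fun σ : ℝ => (((σ - 1) / (1 - (2 : ℝ) ^ (1 - σ)) : ℝ) : ℂ) * I0 σ)
      (𝓝[>] 1) (𝓝 (((1 / Real.log 2 : ℝ) : ℂ) * ((Real.log 2 : ℂ) *
        ∫ u in (0 : ℝ)..1, (F (2 ^ u) : ℂ) *
          Complex.exp (((-((2 * k + 1) * Real.pi * u) : ℝ) : ℂ) * I)))) := by
    rw [← subst F k]
    exact ((Complex.continuous_ofReal.tendsto _).comp lim_factor).mul (I0_lim F A hF hA w)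
  have hfin := herr.add hmain
  have hl : (Real.log 2 : ℂ) ≠ 0 := by exact_mod_cast log2_pos.ne'
  rw [zero_add, ← mul_assoc, ← Complex.ofReal_mul, one_div, inv_mul_cancel₀ log2_pos.ne',
    Complex.ofReal_one, one_mul] at hfin
  refine hfin.congr fun σ => ?_
  simp only [sub_add_cancel]
  rfl

end Pool.Agent.L5helper11.OM
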